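import Mathlib

set_option autoImplicit false

namespace Pool.Agent.H.SE51

open Matrix

section Eqv

variable {L : Type*} [CommRing L]
variable {n m k : Type*} [Fintype n] [DecidableEq n] [Fintype m] [DecidableEq m]
  [Fintype k] [DecidableEq k]

/-- The row modules presented by the square matrices `X` and `Y` are isomorphic
(explicit form). -/
def Eqv (X : Matrix n n L) (Y : Matrix m m L) : Prop :=
  ∃ (U : Matrix n m L) (V : Matrix m n L) (A : Matrix n m L) (B : Matrix m n L)
    (C : Matrix n n L) (D : Matrix m m L),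
    X * U = A * Y ∧ Y * V = B * X ∧ U * V = 1 + C * X ∧ V * U = 1 + D * Y

theorem Eqv.refl (X : Matrix n n L) : Eqv X X :=
  ⟨1, 1, 1, 1, 0, 0, by simp, by simp, by simp, by simp⟩

theorem Eqv.symm {X : Matrix n n L} {Y : Matrix m m L} (h : Eqv X Y) : Eqv Y X := by
  obtain ⟨U, V, A, B, C, D, h1, h2, h3, h4⟩ := h
  exact ⟨V, U, B, A, D, C, h2, h1, h4, h3⟩

theorem Eqv.trans {X : Matrix n n L} {Y : Matrix m m L} {Z : Matrix k k L}
    (h : Eqv X Y) (h' : Eqv Y Z) : Eqv X Z := by
  obtain ⟨U, V, A, B, C, D, h1, h2, h3, h4⟩ := h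
  obtain ⟨U', V', A', B', C', D', h1', h2', h3', h4'⟩ := h'
  refine ⟨U * U', V' * V, A * A', B' * B, C + U * C' * B, D' + V' * D * A', ?_, ?_, ?_, ?_⟩
  · calc X * (U * U') = (X * U) * U' := by rw [Matrix.mul_assoc]
      _ = A * (Y * U') := by rw [h1, Matrix.mul_assoc]
      _ = A * A' * Z := by rw [h1', Matrix.mul_assoc]
  · calc Z * (V' * V) = (Z * V') * V := by rw [Matrix.mul_assoc]
      _ = B' * (Y * V) := by rw [h2', Matrix.mul_assoc]
      _ = B' * B * X := by rw [h2, Matrix.mul_assoc]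
  · calc U * U' * (V' * V) = U * (U' * V') * V := by simp only [Matrix.mul_assoc]
      _ = U * V + U * C' * (Y * V) := by
        rw [h3', Matrix.mul_add, Matrix.add_mul, Matrix.mul_one]; simp only [Matrix.mul_assoc]
      _ = 1 + (C + U * C' * B) * X := by
        rw [h2, h3, Matrix.add_mul, add_assoc]; simp only [Matrix.mul_assoc]
  · calc V' * V * (U * U') = V' * (V * U) * U' := by simp only [Matrix.mul_assoc]
      _ = V' * U' + V' * D * (Y * U') := by
        rw [h4, Matrix.mul_add, Matrix.add_mul, Matrix.mul_one]; simp only [Matrix.mul_assoc]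
      _ = 1 + (D' + V' * D * A') * Z := by
        rw [h1', h4', Matrix.add_mul, add_assoc]; simp only [Matrix.mul_assoc]

/-- left and right multiplication by invertible matrices -/
theorem Eqv.of_mul {X Y P P' Q Q' : Matrix n n L} (hP : P * P' = 1) (hQ : Q * Q' = 1)
    (h : Y = P * X * Q) : Eqv X Y := by
  have hP' : P' * P = 1 := mul_eq_one_comm.1 hP
  have hQ' : Q' * Q = 1 := mul_eq_one_comm.1 hQ
  refine ⟨Q, Q', P', P, 0, 0, ?_, ?_, ?_, ?_⟩
  · rw [h]; simp only [← Matrix.mul_assoc]; rw [hP', Matrix.one_mul]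
  · rw [h, Matrix.mul_assoc (P * X), hQ, Matrix.mul_one]
  · simp [hQ]
  · simp [hQ']

theorem Eqv.reindex (X : Matrix n n L) (e : n ≃ m) :
    Eqv X (Matrix.reindex e e X) := by
  refine ⟨(1 : Matrix n n L).submatrix id e.symm, (1 : Matrix n n L).submatrix e.symm id,
    (1 : Matrix n n L).submatrix id e.symm, (1 : Matrix n n L).submatrix e.symm id, 0, 0,
    ?_, ?_, ?_, ?_⟩
  · rw [Matrix.reindex_apply, Matrix.submatrix_mul_equiv, Matrix.one_mul]
    have := Matrix.submatrix_mul_equiv X (1 : Matrix n n L) id (Equiv.refl n) e.symm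
    simpa using this
  · rw [Matrix.reindex_apply, Matrix.submatrix_mul_equiv X (1 : Matrix n n L) e.symm e.symm id,
      Matrix.mul_one]
    have := Matrix.submatrix_mul_equiv (1 : Matrix n n L) X e.symm (Equiv.refl n) id
    simpa using this.symm
  · rw [Matrix.submatrix_mul_equiv (1 : Matrix n n L) (1 : Matrix n n L) id e.symm id]
    simp
  · have := Matrix.submatrix_mul_equiv (1 : Matrix n n L) (1 : Matrix n n L) e.symm
      (Equiv.refl n) e.symm
    simpa using this

/-- stabilisation -/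
theorem Eqv.stab (X : Matrix n n L) :
    Eqv X (Matrix.fromBlocks X 0 0 (1 : Matrix m m L)) := by
  refine ⟨Matrix.fromCols 1 0, Matrix.fromRows 1 0, Matrix.fromCols 1 0, Matrix.fromRows 1 0, 0,
    Matrix.fromBlocks 0 0 0 (-1), ?_, ?_, ?_, ?_⟩
  · rw [Matrix.fromCols_mul_fromBlocks, Matrix.mul_fromCols]; simp
  · rw [Matrix.fromBlocks_mul_fromRows, Matrix.fromRows_mul]; simp
  · rw [Matrix.fromCols_mul_fromRows]; simp
  · rw [Matrix.fromRows_mul_fromCols, Matrix.fromBlocks_multiply]
    rw [← Matrix.fromBlocks_one, Matrix.fromBlocks_add]; simp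

theorem Eqv.map {L' : Type*} [CommRing L'] (f : L →+* L') {X : Matrix n n L} {Y : Matrix m m L}
    (h : Eqv X Y) : Eqv (X.map f) (Y.map f) := by
  obtain ⟨U, V, A, B, C, D, h1, h2, h3, h4⟩ := h
  refine ⟨U.map f, V.map f, A.map f, B.map f, C.map f, D.map f, ?_, ?_, ?_, ?_⟩
  · rw [← Matrix.map_mul, h1, Matrix.map_mul]
  · rw [← Matrix.map_mul, h2, Matrix.map_mul]
  · rw [← Matrix.map_mul, h3, ← Matrix.map_mul,
      ← Matrix.map_one (⇑f) (map_zero f) (map_one f), ← Matrix.map_add (⇑f) (map_add f)]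
  · rw [← Matrix.map_mul, h4, ← Matrix.map_mul,
      ← Matrix.map_one (⇑f) (map_zero f) (map_one f), ← Matrix.map_add (⇑f) (map_add f)]

end Eqv

end Pool.Agent.H.SE51
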