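import Mathlib
import Pool.Agent.H.MP_345fd7_an.h51.Eqv

set_option autoImplicit false
set_option linter.unusedSectionVars false

namespace Pool.Agent.H.SE51

open Matrix Polynomial

section Ev

variable {R : Type*} [CommRing R]
variable {n m k : Type*} [Fintype n] [DecidableEq n] [Fintype m] [DecidableEq m]
  [Fintype k] [DecidableEq k]

/-- right evaluation of a polynomial matrix at a square matrix -/
noncomputable def evr (C : Matrix m m R) (U : Matrix n m R[X]) : Matrix n m R :=
  fun i j => ∑ l, (aeval C (U i l)) l j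

theorem evr_sub (C : Matrix m m R) (U V : Matrix n m R[X]) :
    evr C (U - V) = evr C U - evr C V := by
  ext i j
  simp [evr, Matrix.sub_apply, Finset.sum_sub_distrib]

theorem evr_add (C : Matrix m m R) (U V : Matrix n m R[X]) :
    evr C (U + V) = evr C U + evr C V := by
  ext i j
  simp [evr, Matrix.add_apply, Finset.sum_add_distrib]

theorem evr_X_smul (C : Matrix m m R) (U : Matrix n m R[X]) :
    evr C ((X : R[X]) • U) = evr C U * C := by
  ext i j
  simp only [evr, Matrix.smul_apply, smul_eq_mul, map_mul, aeval_X, Matrix.mul_apply (M := evr C U)]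
  simp_rw [Finset.sum_mul]
  rw [Finset.sum_comm]
  refine Finset.sum_congr rfl fun l _ => ?_
  have h : C * aeval C (U i l) = aeval C (U i l) * C := by
    have : Commute (aeval C (X : R[X])) (aeval C (U i l)) := by
      rw [Commute, SemiconjBy, ← map_mul, ← map_mul, mul_comm]
    rw [aeval_X] at this
    exact this.eq
  rw [h, Matrix.mul_apply]

theorem evr_const_mul (C : Matrix m m R) (M : Matrix k n R) (U : Matrix n m R[X]) :
    evr C (M.map Polynomial.C * U) = M * evr C U := by
  ext i j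
  simp only [evr, Matrix.mul_apply, Matrix.map_apply, map_sum, map_mul]
  simp_rw [Matrix.sum_apply, Finset.mul_sum]
  rw [Finset.sum_comm]
  refine Finset.sum_congr rfl fun l _ => Finset.sum_congr rfl fun q _ => ?_
  rw [aeval_C, ← Algebra.smul_def, Matrix.smul_apply, smul_eq_mul]

/-- the relation matrix -/
noncomputable def rel (C : Matrix m m R) : Matrix m m R[X] :=
  (X : R[X]) • (1 : Matrix m m R[X]) - C.map Polynomial.C

theorem evr_mul_const (C : Matrix m m R) (U : Matrix n m R[X]) :
    evr C (U * C.map Polynomial.C) = evr C U * C := by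
  rw [← evr_X_smul]
  ext i j
  simp only [evr, Matrix.mul_apply, Matrix.map_apply, map_sum, map_mul, Matrix.smul_apply,
    smul_eq_mul, aeval_X]
  simp_rw [Matrix.sum_apply]
  rw [Finset.sum_comm]
  refine Finset.sum_congr rfl fun l _ => ?_
  refine Eq.trans ?_ (Matrix.mul_apply (M := C) (N := aeval C (U i l)) (i := l) (k := j)).symm
  refine Finset.sum_congr rfl fun q _ => ?_
  rw [aeval_C, ← Algebra.commutes, ← Algebra.smul_def, Matrix.smul_apply, smul_eq_mul]

theorem evr_mul_rel (C : Matrix m m R) (U : Matrix n m R[X]) :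
    evr C (U * rel C) = 0 := by
  rw [rel, Matrix.mul_sub, evr_sub, Matrix.mul_smul, Matrix.mul_one, evr_X_smul, evr_mul_const,
    sub_self]

theorem evr_rel_mul (C : Matrix m m R) (B : Matrix n n R) (U : Matrix n m R[X]) :
    evr C (rel B * U) = evr C U * C - B * evr C U := by
  rw [rel, Matrix.sub_mul, evr_sub, Matrix.smul_mul, Matrix.one_mul, evr_X_smul, evr_const_mul]

theorem intertwine {B : Matrix n n R} {C : Matrix m m R} {S : Matrix m n R}
    (h : C * S = S * B) (f : R[X]) : aeval C f * S = S * aeval B f := by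
  induction f using Polynomial.induction_on' with
  | add p q hp hq => rw [map_add, map_add, Matrix.add_mul, Matrix.mul_add, hp, hq]
  | monomial k a =>
    rw [aeval_monomial, aeval_monomial, ← Algebra.smul_def, ← Algebra.smul_def,
      Matrix.smul_mul, Matrix.mul_smul]
    congr 1
    induction k with
    | zero => simp
    | succ k ih => rw [pow_succ, Matrix.mul_assoc, h, ← Matrix.mul_assoc, ih, Matrix.mul_assoc,
        ← pow_succ]

theorem evr_mul {B : Matrix n n R} {C : Matrix m m R} (U : Matrix n m R[X])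
    (V : Matrix m n R[X]) (h : C * evr B V = evr B V * B) :
    evr B (U * V) = evr C U * evr B V := by
  ext i j
  have key : ∀ q, (∑ l, (aeval B (V q l) * aeval B (U i q)) l j) =
      (aeval C (U i q) * evr B V) q j := by
    intro q
    rw [intertwine h, Matrix.mul_apply]
    simp only [evr, Matrix.mul_apply, Finset.sum_mul]
    rw [Finset.sum_comm]
  calc evr B (U * V) i j = ∑ l, ∑ q, (aeval B (V q l) * aeval B (U i q)) l j := by
        simp only [evr, Matrix.mul_apply (M := U), map_sum, Matrix.sum_apply]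
        refine Finset.sum_congr rfl fun l _ => Finset.sum_congr rfl fun q _ => ?_
        rw [mul_comm, map_mul]
    _ = ∑ q, ∑ l, (aeval B (V q l) * aeval B (U i q)) l j := Finset.sum_comm
    _ = ∑ q, (aeval C (U i q) * evr B V) q j := Finset.sum_congr rfl fun q _ => key q
    _ = (evr C U * evr B V) i j := by
        simp only [Matrix.mul_apply, evr, Finset.sum_mul]
        rw [Finset.sum_comm]

theorem evr_X_pow (B : Matrix n n R) (D : ℕ) :
    evr B ((X : R[X]) ^ D • (1 : Matrix n n R[X])) = B ^ D := by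
  ext i j
  simp only [evr, Matrix.smul_apply, smul_eq_mul, Matrix.one_apply]
  rw [Finset.sum_eq_single i]
  · simp
  · intro b _ hb
    rw [if_neg (fun h => hb h.symm)]; simp
  · simp

/-- shift equivalence from polynomial data. -/
theorem se_of_poly {B : Matrix n n R} {C : Matrix m m R} {D : ℕ}
    {U A : Matrix n m R[X]} {V B' : Matrix m n R[X]} {P : Matrix n n R[X]} {Q : Matrix m m R[X]}
    (h1 : rel B * U = A * rel C) (h2 : rel C * V = B' * rel B)
    (h3 : U * V = (X : R[X]) ^ D • (1 : Matrix n n R[X]) + P * rel B)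
    (h4 : V * U = (X : R[X]) ^ D • (1 : Matrix m m R[X]) + Q * rel C) :
    B * evr C U = evr C U * C ∧ evr B V * B = C * evr B V ∧
      evr C U * evr B V = B ^ D ∧ evr B V * evr C U = C ^ D := by
  have e1 : B * evr C U = evr C U * C := by
    have := congrArg (evr C) h1
    rw [evr_rel_mul, evr_mul_rel, sub_eq_zero] at this
    exact this.symm
  have e2 : evr B V * B = C * evr B V := by
    have := congrArg (evr B) h2
    rw [evr_rel_mul, evr_mul_rel, sub_eq_zero] at this
    exact this
  refine ⟨e1, e2, ?_, ?_⟩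
  · rw [← evr_mul U V e2.symm, h3, evr_add, evr_mul_rel, add_zero, evr_X_pow]
  · rw [← evr_mul V U e1, h4, evr_add, evr_mul_rel, add_zero, evr_X_pow]

end Ev

section Laurent

open LaurentPolynomial

variable {R : Type*} [CommRing R]
variable {n m k : Type*} [Fintype n] [DecidableEq n] [Fintype m] [DecidableEq m]

theorem exists_T_pow' (f : R[T;T⁻¹]) : ∃ N0 : ℕ, ∀ N : ℕ, N0 ≤ N →
    ∃ f' : R[X], toLaurent f' = f * T N := by
  obtain ⟨N0, f', h⟩ := exists_T_pow f
  refine ⟨N0, fun N hN => ⟨f' * X ^ (N - N0), ?_⟩⟩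
  rw [map_mul, h, toLaurent_X_pow, mul_assoc, ← T_add]
  congr 2
  push_cast [hN]
  ring

theorem exists_clear (U : Matrix n m R[T;T⁻¹]) : ∃ N0 : ℕ, ∀ N : ℕ, N0 ≤ N →
    ∃ U' : Matrix n m R[X], U'.map toLaurent = (T N : R[T;T⁻¹]) • U := by
  choose N0 h using fun (i : n) (j : m) => exists_T_pow' (U i j)
  refine ⟨∑ i, ∑ j, N0 i j, fun N hN => ?_⟩
  have hle : ∀ i j, N0 i j ≤ N := fun i j =>
    le_trans (le_trans (Finset.single_le_sum (f := fun j => N0 i j) (fun _ _ => Nat.zero_le _)
      (Finset.mem_univ j)) (Finset.single_le_sum (f := fun i => ∑ j, N0 i j)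
        (fun _ _ => Nat.zero_le _) (Finset.mem_univ i))) hN
  choose f hf using fun (i : n) (j : m) => h i j N (hle i j)
  refine ⟨fun i j => f i j, ?_⟩
  ext1 i j
  rw [Matrix.map_apply, hf, Matrix.smul_apply, smul_eq_mul, mul_comm]

theorem toLaurent_matrix_injective {U V : Matrix n m R[X]}
    (h : U.map toLaurent = V.map toLaurent) : U = V := by
  ext1 i j
  have := congrFun (congrFun h i) j
  simp only [Matrix.map_apply] at this
  exact toLaurent_injective this

theorem map_rel (B : Matrix n n R) :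
    (rel B).map toLaurent = (T 1 : R[T;T⁻¹]) • (1 : Matrix n n R[T;T⁻¹]) -
      B.map LaurentPolynomial.C := by
  ext1 i j
  simp only [rel, Matrix.map_apply, Matrix.sub_apply, Matrix.smul_apply, smul_eq_mul, map_sub,
    map_mul, toLaurent_X, toLaurent_C, Matrix.one_apply]
  split_ifs <;> simp

theorem map_invert_rel (B : Matrix n n R) :
    (1 - (T 1 : R[T;T⁻¹]) • B.map LaurentPolynomial.C).map
        (invert (R := R) : R[T;T⁻¹] ≃ₐ[R] R[T;T⁻¹]).toRingEquiv.toRingHom =
      (T (-1) : R[T;T⁻¹]) • ((rel B).map toLaurent) := by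
  rw [map_rel]
  ext1 i j
  simp only [Matrix.map_apply, Matrix.sub_apply, Matrix.smul_apply, smul_eq_mul, map_sub,
    map_mul, Matrix.one_apply]
  simp only [RingEquiv.toRingHom_eq_coe, AlgEquiv.toRingEquiv_toRingHom, RingHom.coe_coe,
    invert_T, invert_C, mul_sub, ← mul_assoc, ← T_add]
  rw [neg_add_cancel, T_zero, one_mul]
  split_ifs
  · rw [map_one]
  · rw [map_zero]

theorem cancel_T {M M' : Matrix n m R[T;T⁻¹]}
    (hMM : (T (-1) : R[T;T⁻¹]) • M = (T (-1) : R[T;T⁻¹]) • M') : M = M' := by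
  have h1 : (T 1 : R[T;T⁻¹]) * T (-1) = 1 := by rw [← T_add]; exact T_zero
  have := congrArg (fun z => (T 1 : R[T;T⁻¹]) • z) hMM
  simp only [smul_smul, h1, one_smul] at this
  exact this

theorem map_X_pow (D : ℕ) : (((X : R[X]) ^ D • (1 : Matrix n n R[X])).map toLaurent) =
    (T D : R[T;T⁻¹]) • (1 : Matrix n n R[T;T⁻¹]) := by
  ext1 i j
  simp only [Matrix.map_apply, Matrix.smul_apply, smul_eq_mul, map_mul, toLaurent_X_pow,
    Matrix.one_apply]
  split_ifs <;> simp

/-- shift equivalence from an equivalence of presentations over Laurent polynomials -/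
theorem se_of_eqv {B : Matrix n n R} {C : Matrix m m R}
    (h : Eqv (1 - (T 1 : R[T;T⁻¹]) • B.map LaurentPolynomial.C)
      (1 - (T 1 : R[T;T⁻¹]) • C.map LaurentPolynomial.C)) :
    ∃ ℓ : ℕ, 0 < ℓ ∧ ∃ (P : Matrix n m R) (Q : Matrix m n R),
      B * P = P * C ∧ Q * B = C * Q ∧ P * Q = B ^ ℓ ∧ Q * P = C ^ ℓ := by
  -- invert the variable
  have h' := h.map (L' := R[T;T⁻¹]) (invert (R := R) : R[T;T⁻¹] ≃ₐ[R] R[T;T⁻¹]).toRingEquiv.toRingHom
  rw [map_invert_rel, map_invert_rel] at h'
  obtain ⟨U, V, A, B', P, Q, h1, h2, h3, h4⟩ := h'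
  obtain ⟨N1, k1⟩ := exists_clear U
  obtain ⟨N2, k2⟩ := exists_clear V
  obtain ⟨N3, k3⟩ := exists_clear A
  obtain ⟨N4, k4⟩ := exists_clear B'
  obtain ⟨N5, k5⟩ := exists_clear ((T (-1) : R[T;T⁻¹]) • P)
  obtain ⟨N6, k6⟩ := exists_clear ((T (-1) : R[T;T⁻¹]) • Q)
  set N := N1 + N2 + N3 + N4 + N5 + N6 + 1 with hN
  obtain ⟨U', hU⟩ := k1 N (by omega)
  obtain ⟨V', hV⟩ := k2 N (by omega)
  obtain ⟨A', hA⟩ := k3 N (by omega)
  obtain ⟨B'', hB⟩ := k4 N (by omega)
  obtain ⟨P', hP⟩ := k5 (2 * N) (by omega)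
  obtain ⟨Q', hQ⟩ := k6 (2 * N) (by omega)
  have e1 : rel B * U' = A' * rel C := by
    apply toLaurent_matrix_injective
    rw [Matrix.map_mul, Matrix.map_mul, hU, hA, Matrix.mul_smul, Matrix.smul_mul]
    congr 1
    apply cancel_T
    rw [← Matrix.smul_mul, h1, ← Matrix.mul_smul]
  have e2 : rel C * V' = B'' * rel B := by
    apply toLaurent_matrix_injective
    rw [Matrix.map_mul, Matrix.map_mul, hV, hB, Matrix.mul_smul, Matrix.smul_mul]
    congr 1
    apply cancel_T
    rw [← Matrix.smul_mul, h2, ← Matrix.mul_smul]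
  have e3 : U' * V' = (X : R[X]) ^ (2 * N) • (1 : Matrix n n R[X]) + P' * rel B := by
    apply toLaurent_matrix_injective
    rw [Matrix.map_mul, hU, hV, Matrix.map_add _ (map_add _), map_X_pow, Matrix.map_mul, hP,
      Matrix.smul_mul, Matrix.mul_smul, h3, smul_smul, ← T_add]
    rw [Matrix.smul_mul, Matrix.smul_mul, ← Matrix.mul_smul P, ← smul_add]
    congr 2
    push_cast
    ring
  have e4 : V' * U' = (X : R[X]) ^ (2 * N) • (1 : Matrix m m R[X]) + Q' * rel C := by
    apply toLaurent_matrix_injective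
    rw [Matrix.map_mul, hU, hV, Matrix.map_add _ (map_add _), map_X_pow, Matrix.map_mul, hQ,
      Matrix.smul_mul, Matrix.mul_smul, h4, smul_smul, ← T_add]
    rw [Matrix.smul_mul, Matrix.smul_mul, ← Matrix.mul_smul Q, ← smul_add]
    congr 2
    push_cast
    ring
  obtain ⟨f1, f2, f3, f4⟩ := se_of_poly e1 e2 e3 e4
  exact ⟨2 * N, by omega, _, _, f1, f2, f3, f4⟩

end Laurent

end Pool.Agent.H.SE51
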