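import Mathlib

set_option autoImplicit false
set_option linter.unusedSectionVars false

namespace Pool.Agent.H.SE51

open Matrix PowerSeries

section Ser

variable {R : Type*} [CommRing R] [PartialOrder R] [IsOrderedRing R]
variable {n m k l : Type*} [Fintype n] [DecidableEq n] [Fintype m] [DecidableEq m]
  [Fintype k] [DecidableEq k] [Fintype l] [DecidableEq l]

/-- nonnegative power series -/
def NN (f : R⟦X⟧) : Prop := ∀ d, 0 ≤ coeff d f

theorem NN.zero : NN (0 : R⟦X⟧) := fun d => by simp

theorem NN.one : NN (1 : R⟦X⟧) := fun d => by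
  rw [coeff_one]; split_ifs
  · exact zero_le_one
  · exact le_rfl

theorem NN.add {f g : R⟦X⟧} (hf : NN f) (hg : NN g) : NN (f + g) := fun d => by
  rw [map_add]; exact add_nonneg (hf d) (hg d)

theorem NN.mul {f g : R⟦X⟧} (hf : NN f) (hg : NN g) : NN (f * g) := fun d => by
  rw [coeff_mul]
  exact Finset.sum_nonneg fun p _ => mul_nonneg (hf _) (hg _)

theorem NN.sum {ι : Type*} (s : Finset ι) {f : ι → R⟦X⟧} (hf : ∀ i ∈ s, NN (f i)) :
    NN (∑ i ∈ s, f i) := fun d => by
  rw [map_sum]; exact Finset.sum_nonneg fun i hi => hf i hi d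

/-- nonnegative matrix of power series -/
def PosM (M : Matrix n m R⟦X⟧) : Prop := ∀ i j, NN (M i j)

theorem PosM.zero : PosM (0 : Matrix n m R⟦X⟧) := fun _ _ => NN.zero

theorem PosM.one : PosM (1 : Matrix n n R⟦X⟧) := fun i j => by
  rw [Matrix.one_apply]; split_ifs
  · exact NN.one
  · exact NN.zero

theorem PosM.add {M N : Matrix n m R⟦X⟧} (hM : PosM M) (hN : PosM N) : PosM (M + N) :=
  fun i j => (hM i j).add (hN i j)

theorem PosM.mul {M : Matrix n m R⟦X⟧} {N : Matrix m k R⟦X⟧} (hM : PosM M) (hN : PosM N) :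
    PosM (M * N) := fun i j => by
  rw [Matrix.mul_apply]; exact NN.sum _ fun q _ => (hM i q).mul (hN q j)

theorem PosM.sum {ι : Type*} (s : Finset ι) {f : ι → Matrix n m R⟦X⟧}
    (hf : ∀ i ∈ s, PosM (f i)) : PosM (∑ i ∈ s, f i) := fun i j => by
  rw [Matrix.sum_apply]; exact NN.sum _ fun q hq => hf q hq i j

theorem PosM.pow {M : Matrix n n R⟦X⟧} (hM : PosM M) (d : ℕ) : PosM (M ^ d) := by
  induction d with
  | zero => rw [pow_zero]; exact PosM.one
  | succ d ih => rw [pow_succ]; exact ih.mul hM

/-- zero constant terms -/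
def Con0 (M : Matrix n m R⟦X⟧) : Prop := ∀ i j, coeff 0 (M i j) = 0

/-- the geometric series of a matrix of power series -/
noncomputable def Geo (K : Matrix n n R⟦X⟧) : Matrix n n R⟦X⟧ := (1 - K)⁻¹

omit [PartialOrder R] [IsOrderedRing R] in
theorem isUnit_det {K : Matrix n n R⟦X⟧} (hK : Con0 K) : IsUnit (1 - K).det := by
  rw [PowerSeries.isUnit_iff_constantCoeff, RingHom.map_det]
  have : (constantCoeff (R := R)).mapMatrix (1 - K) = 1 := by
    ext i j
    rw [map_sub, map_one]
    simp only [RingHom.mapMatrix_apply, Matrix.sub_apply, Matrix.map_apply]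
    have := hK i j
    rw [PowerSeries.coeff_zero_eq_constantCoeff_apply] at this
    rw [this, sub_zero]
  rw [this]; simp

omit [PartialOrder R] [IsOrderedRing R] in
theorem geo_mul {K : Matrix n n R⟦X⟧} (hK : Con0 K) : Geo K * (1 - K) = 1 :=
  Matrix.nonsing_inv_mul _ (isUnit_det hK)

omit [PartialOrder R] [IsOrderedRing R] in
theorem mul_geo {K : Matrix n n R⟦X⟧} (hK : Con0 K) : (1 - K) * Geo K = 1 :=
  Matrix.mul_nonsing_inv _ (isUnit_det hK)

omit [PartialOrder R] [IsOrderedRing R] in
theorem geo_eq {K : Matrix n n R⟦X⟧} (hK : Con0 K) : Geo K = 1 + K * Geo K := by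
  have := mul_geo hK
  rw [Matrix.sub_mul, Matrix.one_mul] at this
  rw [← this]; abel

omit [PartialOrder R] [IsOrderedRing R] in
theorem geo_eq' {K : Matrix n n R⟦X⟧} (hK : Con0 K) : Geo K = 1 + Geo K * K := by
  have := geo_mul hK
  rw [Matrix.mul_sub, Matrix.mul_one] at this
  rw [← this]; abel

omit [PartialOrder R] [IsOrderedRing R] in
theorem geo_unique {K N : Matrix n n R⟦X⟧} (hK : Con0 K) (h : N * (1 - K) = 1) :
    N = Geo K := by
  calc N = N * ((1 - K) * Geo K) := by rw [mul_geo hK, Matrix.mul_one]
    _ = Geo K := by rw [← Matrix.mul_assoc, h, Matrix.one_mul]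

theorem geo_nonneg {K : Matrix n n R⟦X⟧} (hK : Con0 K) (hp : PosM K) : PosM (Geo K) := by
  intro i j d
  induction d using Nat.strong_induction_on generalizing i j with
  | _ d ih =>
    rw [geo_eq hK, Matrix.add_apply, map_add, Matrix.mul_apply, map_sum]
    refine add_nonneg (PosM.one i j d) (Finset.sum_nonneg fun q _ => ?_)
    rw [coeff_mul]
    refine Finset.sum_nonneg fun p hp' => ?_
    rw [Finset.HasAntidiagonal.mem_antidiagonal] at hp'
    rcases Nat.eq_zero_or_pos p.1 with h0 | h0
    · rw [h0, hK, zero_mul]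
    · exact mul_nonneg (hp i q _) (ih _ (by omega) q j)

theorem geo_mono {K K' : Matrix n n R⟦X⟧} (hK : Con0 K) (hK' : Con0 K') (hp : PosM K)
    (hd : PosM (K' - K)) : PosM (Geo K' - Geo K) := by
  have hp' : PosM K' := by have := hd.add hp; rwa [sub_add_cancel] at this
  have e : Geo K' - Geo K = Geo K' * (K' - K) * Geo K := by
    have h1 := geo_mul hK'
    have h2 := mul_geo hK
    calc Geo K' - Geo K = Geo K' * ((1 - K) * Geo K) - (Geo K' * (1 - K')) * Geo K := by
          rw [h1, h2, Matrix.mul_one, Matrix.one_mul]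
      _ = Geo K' * (K' - K) * Geo K := by
          rw [← Matrix.mul_assoc, ← Matrix.sub_mul, ← Matrix.mul_sub]
          congr 2; abel
  rw [e]
  exact ((geo_nonneg hK' hp').mul hd).mul (geo_nonneg hK hp)

/-- coefficient of a product of matrices -/
theorem coeff_mul_apply (M : Matrix n m R⟦X⟧) (N : Matrix m k R⟦X⟧) (i : n) (j : k) (d : ℕ) :
    coeff d ((M * N) i j) =
      ∑ q, ∑ p ∈ Finset.HasAntidiagonal.antidiagonal d, coeff p.1 (M i q) * coeff p.2 (N q j) := by
  rw [Matrix.mul_apply, map_sum]
  exact Finset.sum_congr rfl fun q _ => coeff_mul _ _ _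

/-- lower bound of a product of nonnegative matrices by a single convolution term -/
theorem single_le_mul {M : Matrix n m R⟦X⟧} {N : Matrix m k R⟦X⟧} (hM : PosM M) (hN : PosM N)
    (i : n) (j : k) (q : m) (a b : ℕ) :
    coeff a (M i q) * coeff b (N q j) ≤ coeff (a + b) ((M * N) i j) := by
  rw [coeff_mul_apply]
  refine le_trans ?_ (Finset.single_le_sum (f := fun q =>
    ∑ p ∈ Finset.HasAntidiagonal.antidiagonal (a + b), coeff p.1 (M i q) * coeff p.2 (N q j))
    (fun q _ => Finset.sum_nonneg fun p _ => mul_nonneg (hM _ _ _) (hN _ _ _)) (Finset.mem_univ q))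
  refine Finset.single_le_sum (f := fun p : ℕ × ℕ => coeff p.1 (M i q) * coeff p.2 (N q j))
    (fun p _ => mul_nonneg (hM _ _ _) (hN _ _ _)) (a := (a, b)) ?_
  rw [Finset.HasAntidiagonal.mem_antidiagonal]

/-- lower bound by a full convolution term -/
theorem sum_le_mul {M : Matrix n m R⟦X⟧} {N : Matrix m k R⟦X⟧} (hM : PosM M) (hN : PosM N)
    (i : n) (j : k) (a b : ℕ) :
    ∑ q, coeff a (M i q) * coeff b (N q j) ≤ coeff (a + b) ((M * N) i j) := by
  rw [coeff_mul_apply]
  refine Finset.sum_le_sum fun q _ => ?_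
  refine Finset.single_le_sum (f := fun p : ℕ × ℕ => coeff p.1 (M i q) * coeff p.2 (N q j))
    (fun p _ => mul_nonneg (hM _ _ _) (hN _ _ _)) (a := (a, b)) ?_
  rw [Finset.HasAntidiagonal.mem_antidiagonal]

/-- supermultiplicativity -/
theorem geo_super {K : Matrix n n R⟦X⟧} (hK : Con0 K) (hp : PosM K) (a b : ℕ) (i j : n) :
    ∑ q, coeff a (Geo K i q) * coeff b (Geo K q j) ≤ coeff (a + b) (Geo K i j) := by
  induction b using Nat.strong_induction_on generalizing j with
  | _ b ih =>
    rcases Nat.eq_zero_or_pos b with h0 | h0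
    · subst h0
      have : ∀ q, coeff 0 (Geo K q j) = if q = j then 1 else 0 := by
        intro q
        rw [geo_eq hK, Matrix.add_apply, map_add, coeff_mul_apply]
        simp only [Finset.Nat.antidiagonal_zero, Finset.sum_singleton, hK _ _, zero_mul,
          Finset.sum_const_zero, add_zero, Matrix.one_apply]
        split_ifs <;> simp
      simp [this]
    · have hg := geo_nonneg hK hp
      have hb : ∀ q, coeff b (Geo K q j) = ∑ r, ∑ p ∈ Finset.HasAntidiagonal.antidiagonal b,
          coeff p.1 (Geo K q r) * coeff p.2 (K r j) := by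
        intro q
        conv_lhs => rw [geo_eq' hK, Matrix.add_apply, map_add, coeff_mul_apply]
        rw [Matrix.one_apply]
        have : coeff b (if q = j then (1 : R⟦X⟧) else 0) = 0 := by
          split_ifs
          · rw [coeff_one, if_neg (by omega)]
          · simp
        rw [this, zero_add]
      have hab : coeff (a + b) (Geo K i j) = ∑ r, ∑ p ∈ Finset.HasAntidiagonal.antidiagonal (a + b),
          coeff p.1 (Geo K i r) * coeff p.2 (K r j) := by
        conv_lhs => rw [geo_eq' hK, Matrix.add_apply, map_add, coeff_mul_apply]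
        rw [Matrix.one_apply]
        have : coeff (a + b) (if i = j then (1 : R⟦X⟧) else 0) = 0 := by
          split_ifs
          · rw [coeff_one, if_neg (by omega)]
          · simp
        rw [this, zero_add]
      rw [hab]
      calc ∑ q, coeff a (Geo K i q) * coeff b (Geo K q j)
          = ∑ q, ∑ r, ∑ p ∈ Finset.HasAntidiagonal.antidiagonal b,
              coeff a (Geo K i q) * (coeff p.1 (Geo K q r) * coeff p.2 (K r j)) := by
            refine Finset.sum_congr rfl fun q _ => ?_
            rw [hb q, Finset.mul_sum]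
            refine Finset.sum_congr rfl fun r _ => ?_
            rw [Finset.mul_sum]
        _ = ∑ r, ∑ p ∈ Finset.HasAntidiagonal.antidiagonal b,
              (∑ q, coeff a (Geo K i q) * coeff p.1 (Geo K q r)) * coeff p.2 (K r j) := by
            rw [Finset.sum_comm]
            refine Finset.sum_congr rfl fun r _ => ?_
            rw [Finset.sum_comm]
            refine Finset.sum_congr rfl fun p _ => ?_
            rw [Finset.sum_mul]
            refine Finset.sum_congr rfl fun q _ => ?_
            ring
        _ ≤ ∑ r, ∑ p ∈ Finset.HasAntidiagonal.antidiagonal b,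
              coeff (a + p.1) (Geo K i r) * coeff p.2 (K r j) := by
            refine Finset.sum_le_sum fun r _ => Finset.sum_le_sum fun p hpp => ?_
            rw [Finset.HasAntidiagonal.mem_antidiagonal] at hpp
            rcases Nat.eq_zero_or_pos p.2 with h2 | h2
            · rw [h2, hK, mul_zero, mul_zero]
            · exact mul_le_mul_of_nonneg_right (ih p.1 (by omega) r) (hp _ _ _)
        _ ≤ ∑ r, ∑ p ∈ Finset.HasAntidiagonal.antidiagonal (a + b),
              coeff p.1 (Geo K i r) * coeff p.2 (K r j) := by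
            refine Finset.sum_le_sum fun r _ => ?_
            have hm := Finset.sum_map (Finset.HasAntidiagonal.antidiagonal b)
              (⟨fun p : ℕ × ℕ => (a + p.1, p.2), fun p q h => by
                simp only [Prod.mk.injEq] at h
                exact Prod.ext (by omega) h.2⟩ : ℕ × ℕ ↪ ℕ × ℕ)
              (fun p => coeff p.1 (Geo K i r) * coeff p.2 (K r j))
            refine le_trans (le_of_eq hm.symm) ?_
            refine Finset.sum_le_sum_of_subset_of_nonneg ?_ ?_
            · intro p hpp
              rw [Finset.mem_map] at hpp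
              obtain ⟨p', hp', rfl⟩ := hpp
              rw [Finset.HasAntidiagonal.mem_antidiagonal] at hp' ⊢
              simp only [Function.Embedding.coeFn_mk]
              omega
            · intro p _ _
              exact mul_nonneg (hg _ _ _) (hp _ _ _)

end Ser

end Pool.Agent.H.SE51
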